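import Pool.Agent.Lib.MP_51b9c2_an.PartI
import Pool.Agent.Lib.MP_51b9c2_an.PartII
import Pool.Agent.Lib.MP_51b9c2_an.PartIII
import Pool.Agent.Lib.MP_51b9c2_an.PartIVa

/-!
# Zorboska's question: the weights `β` with property (Z)

The definitions (`MemH2`, `normSq`, `IsSymbol`, `BoundedComp`, `PropertyZ`,
`SlowlyOscillating`, `EssDecreasing`) are in `Pool/Agent/Lib/MP_51b9c2_an/Defs.lean`.

The theorem holds for every sequence of positive reals; the standing assumption
`liminf β_n^{1/n} ≥ 1` of the question is not needed (it is automatic on both sides of the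
equivalence).
-/

namespace Pool.Agent.Results.MP_51b9c2_an.Characterization

open Pool.Agent.MP51b9c2

/-- Every symbol that lies in `H²(β)` induces a bounded composition operator on `H²(β)` if and
only if `β` is slowly oscillating and, moreover, `β` is essentially decreasing or
`∑ n² / β_n < ∞`. -/
theorem result (β : ℕ → ℝ) (hpos : ∀ n, 0 < β n) :
    PropertyZ β ↔
      SlowlyOscillating β ∧ (EssDecreasing β ∨ Summable fun n : ℕ => (n : ℝ) ^ 2 / β n) := by
  constructor
  · intro hZ
    have hSO := slowlyOscillating_of_propertyZ hpos hZ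
    refine ⟨hSO, ?_⟩
    by_cases hB : BddAbove (Set.range β)
    · obtain ⟨B, hB⟩ := hB
      exact Or.inl (partIVb hpos hSO hZ (B := B) fun n => hB ⟨n, rfl⟩)
    · exact Or.inr (partIVa hpos hSO hZ hB)
  · rintro ⟨hSO, hED | hsum⟩
    · intro φ hφ _
      obtain ⟨K, hK⟩ := bdd_of_essDecreasing hpos hSO hED hφ.1 hφ.2.1
      exact (boundedComp_iff hpos hφ.1 hφ.2.1).2 ⟨K, hK⟩
    · exact partIII (fun β' h1 h2 h3 φ h4 h5 => bdd_of_essDecreasing h1 h2 h3 h4 h5) hpos hSO hsum

end Pool.Agent.Results.MP_51b9c2_an.Characterization
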